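import Pool.Agent.N443.PG.Coc

/-! For every even `k`: a `k`-graph with few complete `k`-graphs on `k + 1` vertices, whose links of
`(k-2)`-sets contain few induced copies of three graphs, is close to a cocycle. -/

set_option autoImplicit false

open Finset

namespace Pool.Agent.Results.MP_8ee768_co.TameLinksEven

/-- number of `(k+1)`-element sets of vertices all of whose `k`-element subsets are members of `H` -/
def cliques {n : ℕ} (k : ℕ) (H : Finset (Finset (Fin n))) : ℕ :=
  ((powersetCard (k + 1) (univ : Finset (Fin n))).filter (fun S => powersetCard k S ⊆ H)).card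

/-- `C` is a `(k-1)`-dimensional cocycle: a family of `k`-element sets such that every `k + 1` vertices
contain an even number of its members -/
def IsCocycle {n : ℕ} (k : ℕ) (C : Finset (Finset (Fin n))) : Prop :=
  C ⊆ powersetCard k univ ∧
    ∀ S ∈ powersetCard (k + 1) (univ : Finset (Fin n)), Even (C.filter (· ⊆ S)).card

/-- the vertices `φ j` form an induced copy of the graph `F` in the link of the set of the `k - 2`
vertices `p i`, that is, in the graph on the other vertices in which `a` and `b` are adjacent when `a`,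
`b` and the `p i` together form a member of `H` -/
def IsCopy {n : ℕ} (k : ℕ) (H : Finset (Finset (Fin n))) {J : Type} (F : SimpleGraph J)
    (p : Fin (k - 2) → Fin n) (φ : J → Fin n) : Prop :=
  Function.Injective p ∧ Function.Injective φ ∧ (∀ i j, p i ≠ φ j) ∧
    ∀ j l, j ≠ l → (F.Adj j l ↔ insert (φ j) (insert (φ l) (univ.image p)) ∈ H)

/-- number of (labelled) induced copies of the graph `F` in the links of `(k-2)`-sets of `H` -/
noncomputable def copies {n : ℕ} (k : ℕ) (H : Finset (Finset (Fin n))) {J : Type}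
    (F : SimpleGraph J) : ℕ :=
  Nat.card {x : (Fin (k - 2) → Fin n) × (J → Fin n) // IsCopy k H F x.1 x.2}

/-- `K_t ∪ tK_1`: a complete graph with `t` vertices and `t` isolated vertices -/
def cliqueAndPoints (t : ℕ) : SimpleGraph (Fin t ⊕ Fin t) :=
  (⊤ : SimpleGraph (Fin t)) ⊕g (⊥ : SimpleGraph (Fin t))

/-- the complete split graph: a complete graph with `t` vertices, all joined to `t` further vertices, which
are pairwise not adjacent (the complement of `K_t ∪ tK_1` with the two parts exchanged) -/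
def cliqueJoinPoints (t : ℕ) : SimpleGraph (Fin t ⊕ Fin t) :=
  ((⊥ : SimpleGraph (Fin t)) ⊕g (⊤ : SimpleGraph (Fin t)))ᶜ

/-- `K_{t,t} ∪ tK_1`: a complete bipartite graph with parts of size `t` and `t` isolated vertices -/
def bicliqueAndPoints (t : ℕ) : SimpleGraph ((Fin t ⊕ Fin t) ⊕ Fin t) :=
  (completeBipartiteGraph (Fin t) (Fin t)) ⊕g (⊥ : SimpleGraph (Fin t))

open Pool.Agent.N443.PG

theorem OC_le {n c : ℕ} (H : Finset (Finset (Fin n))) {J : Type} [Fintype J] (F : SimpleGraph J) :
    (OC c H F).card ≤ copies (c + 2) H F := by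
  classical
  unfold copies
  rw [Nat.card_eq_fintype_card, ← Fintype.card_coe (OC c H F)]
  refine Fintype.card_le_of_injective (fun w : {w // w ∈ OC c H F} =>
    (⟨(fun i => w.1 (Sum.inl i), fun j => w.1 (Sum.inr j)), ?_⟩ :
      {x : (Fin (c + 2 - 2) → Fin n) × (J → Fin n) // IsCopy (c + 2) H F x.1 x.2})) ?_
  · obtain ⟨hi, hF⟩ := mem_OC.mp w.2
    exact ⟨fun i j h => Sum.inl_injective (hi h), fun j l h => Sum.inr_injective (hi h),
      fun i j h => absurd (hi h) (by simp), hF⟩
  · rintro ⟨w, hw⟩ ⟨w', hw'⟩ h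
    have h0 := congrArg Subtype.val h
    have h1 := (Prod.mk.inj h0).1
    have h2 := (Prod.mk.inj h0).2
    refine Subtype.ext (funext ?_)
    rintro (i | j)
    · exact congrFun h1 i
    · exact congrFun h2 j

/-- For every even `k ≥ 2`, every `t` and `ε > 0` there are `δ > 0` and `n₀` such that every `k`-graph on
`n ≥ n₀` vertices with at most `δ n^(k+1)` complete `k`-graphs on `k + 1` vertices and at most
`δ n^(k-2+2t)`, `δ n^(k-2+2t)` and `δ n^(k-2+3t)` induced copies of `K_t ∪ tK_1`, of the complete split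
graph and of `K_{t,t} ∪ tK_1` in the links of `(k-2)`-sets differs from a cocycle in at most `ε n^k`
sets. -/
theorem result (k : ℕ) (hk : Even k) (hk2 : 2 ≤ k) (t : ℕ) (ε : ℝ) (hε : 0 < ε) :
    ∃ δ : ℝ, 0 < δ ∧ ∃ n0 : ℕ, ∀ n : ℕ, n0 ≤ n →
    ∀ H : Finset (Finset (Fin n)), H ⊆ powersetCard k univ →
      (cliques k H : ℝ) ≤ δ * (n : ℝ) ^ (k + 1) →
      (copies k H (cliqueAndPoints t) : ℝ) ≤ δ * (n : ℝ) ^ (k - 2 + 2 * t) →
      (copies k H (cliqueJoinPoints t) : ℝ) ≤ δ * (n : ℝ) ^ (k - 2 + 2 * t) →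
      (copies k H (bicliqueAndPoints t) : ℝ) ≤ δ * (n : ℝ) ^ (k - 2 + 3 * t) →
      ∃ C : Finset (Finset (Fin n)), IsCocycle k C ∧
        ((symmDiff H C).card : ℝ) ≤ ε * (n : ℝ) ^ k := by
  obtain ⟨c, rfl⟩ : ∃ c, k = c + 2 := ⟨k - 2, by omega⟩
  have hc : Even c := by
    rw [Nat.even_iff] at hk ⊢
    omega
  obtain ⟨δ, hδ, n0, h0⟩ := close c t hc ε hε
  refine ⟨δ, hδ, n0, fun n hn H hH hK h1 h3 h2 => ?_⟩
  have e1 : c + 2 - 2 + 2 * t = c + (t + t) := by omega
  have e2 : c + 2 - 2 + 3 * t = c + (t + t + t) := by omega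
  rw [e1] at h1 h3
  rw [e2] at h2
  obtain ⟨C, hC, hE, hd⟩ := h0 n hn H hH hK
    (le_trans (by exact_mod_cast OC_le H (G1 t)) h1)
    (le_trans (by exact_mod_cast OC_le H (G3 t)) h3)
    (le_trans (by exact_mod_cast OC_le H (G2 t)) h2)
  exact ⟨C, ⟨hC, hE⟩, hd⟩

end Pool.Agent.Results.MP_8ee768_co.TameLinksEven
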